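import Mathlib

namespace Pool.Agent.Results.MP_a09a01_co.NotNice

/-- A finite oriented graph on the vertex set `Fin n`. The condition `asymm` excludes loops and
directed cycles of length two; multiple arcs cannot occur since `Adj` is a relation. -/
structure OGraph where
  n : ℕ
  Adj : Fin n → Fin n → Prop
  asymm : ∀ u v, Adj u v → ¬ Adj v u

/-- The underlying undirected graph. -/
def OGraph.toSimple (D : OGraph) : SimpleGraph (Fin D.n) where
  Adj u v := D.Adj u v ∨ D.Adj v u
  symm := ⟨fun _ _ h => h.symm⟩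
  loopless := ⟨fun u h => h.elim (fun h => D.asymm u u h h) (fun h => D.asymm u u h h)⟩

/-- A tournament: every two distinct vertices are joined by an arc. -/
def OGraph.IsTournament (D : OGraph) : Prop := ∀ u v, u ≠ v → D.Adj u v ∨ D.Adj v u

/-- An oriented forest: the underlying undirected graph is acyclic. -/
def OGraph.IsForest (D : OGraph) : Prop := D.toSimple.IsAcyclic

/-- In the colouring `c` of the arcs of `D` the colour class `i` contains a copy of `F`. -/
def HasCopy (F D : OGraph) {k : ℕ} (c : Fin D.n → Fin D.n → Fin k) (i : Fin k) : Prop :=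
  ∃ f : Fin F.n → Fin D.n, Function.Injective f ∧
    ∀ u v, F.Adj u v → D.Adj (f u) (f v) ∧ c (f u) (f v) = i

/-- The arcs of `D` admit an `𝓕`-free `k`-colouring. -/
def HasFreeColouring (𝓕 : Set OGraph) (k : ℕ) (D : OGraph) : Prop :=
  ∃ c : Fin D.n → Fin D.n → Fin k, ∀ i, ∀ F ∈ 𝓕, ¬ HasCopy F D c i

/-- The numbers of vertices of tournaments with an `𝓕`-free `k`-colouring of their arcs;
the greatest element of this set is `p_k(𝓕)`. -/
def tournamentOrders (𝓕 : Set OGraph) (k : ℕ) : Set ℕ :=
  {m | ∃ D : OGraph, D.n = m ∧ D.IsTournament ∧ HasFreeColouring 𝓕 k D}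

/-- The chromatic numbers of oriented graphs with an `𝓕`-free `k`-colouring of their arcs;
the greatest element of this set is `q_k(𝓕)`. -/
def chromaticValues (𝓕 : Set OGraph) (k : ℕ) : Set ℕ :=
  {m | ∃ D : OGraph, D.toSimple.chromaticNumber = (m : ℕ∞) ∧ HasFreeColouring 𝓕 k D}

/-- `𝓕` is `k`-nice: `p_k(𝓕) = q_k(𝓕)`. -/
def IsNice (𝓕 : Set OGraph) (k : ℕ) : Prop :=
  ∃ m, IsGreatest (tournamentOrders 𝓕 k) m ∧ IsGreatest (chromaticValues 𝓕 k) m

/-! ### The family -/

/-- The directed path `0 → 1 → 2`. -/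
def dipath : OGraph where
  n := 3
  Adj u v := (u = 0 ∧ v = 1) ∨ (u = 1 ∧ v = 2)
  asymm := by decide

/-- The antidirected 4-cycle `0 → 1 ← 2 → 3 ← 0`. -/
def anticycle : OGraph where
  n := 4
  Adj u v := (u = 0 ∨ u = 2) ∧ (v = 1 ∨ v = 3)
  asymm := by decide

/-- The family consisting of these two graphs. -/
def fam : Set OGraph := {dipath, anticycle}

lemma dipath_forest : dipath.IsForest := by
  unfold OGraph.IsForest
  rw [SimpleGraph.isAcyclic_iff_free_cycleGraph]
  rintro n hn ⟨f⟩
  have hinj : Function.Injective (f : Fin n → Fin 3) := f.injective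
  have hcard : n ≤ 3 := by
    have : Fintype.card (Fin n) ≤ Fintype.card (Fin 3) := Fintype.card_le_of_injective _ hinj
    simpa using this
  obtain rfl : n = 3 := le_antisymm hcard hn
  have h02 : ∀ a b : Fin 3, a ≠ b → dipath.toSimple.Adj (f a) (f b) := by
    intro a b hab
    apply f.toHom.map_adj
    rw [SimpleGraph.cycleGraph_three_eq_top]
    exact hab
  have hsurj : Function.Surjective (f : Fin 3 → Fin 3) := Finite.surjective_of_injective hinj
  obtain ⟨a, ha⟩ := hsurj (0 : Fin 3)
  obtain ⟨b, hb⟩ := hsurj (2 : Fin 3)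
  have hab : a ≠ b := by
    rintro rfl
    rw [ha] at hb
    exact absurd hb (by decide : ¬ ((0 : Fin 3) = 2))
  have hadj := h02 a b hab
  rcases hadj with (⟨h1, h2⟩ | ⟨h1, h2⟩) | (⟨h1, h2⟩ | ⟨h1, h2⟩)
  · exact absurd (hb.symm.trans h2) (by decide : ¬ ((2 : Fin 3) = 1))
  · exact absurd (ha.symm.trans h1) (by decide : ¬ ((0 : Fin 3) = 1))
  · exact absurd (hb.symm.trans h1) (by decide : ¬ ((2 : Fin 3) = 0))
  · exact absurd (ha.symm.trans h2) (by decide : ¬ ((0 : Fin 3) = 2))

/-! ### Graphs without 4-cycles and with given chromatic number -/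

/-- No cycle of length four. -/
def C4Free {V : Type} (G : SimpleGraph V) : Prop :=
  ∀ a b c d, a ≠ c → b ≠ d → G.Adj a b → G.Adj b c → G.Adj c d → G.Adj d a → False

/-- One step of the construction of Descartes. -/
def desc {V : Type} (G : SimpleGraph V) (N : ℕ) : SimpleGraph (Fin N ⊕ ((V ↪ Fin N) × V)) where
  Adj x y := match x, y with
    | Sum.inl _, Sum.inl _ => False
    | Sum.inl s, Sum.inr (e, v) => e v = s
    | Sum.inr (e, v), Sum.inl s => e v = s
    | Sum.inr (e, v), Sum.inr (e', v') => e = e' ∧ G.Adj v v'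
  symm := ⟨by
    rintro (s | ⟨e, v⟩) (s' | ⟨e', v'⟩) h
    · exact h
    · exact h
    · exact h
    · exact ⟨h.1.symm, h.2.symm⟩⟩
  loopless := ⟨by
    rintro (s | ⟨e, v⟩) h
    · exact h
    · exact G.loopless.irrefl v h.2⟩

lemma desc_c4free {V : Type} (G : SimpleGraph V) (N : ℕ) (hG : C4Free G) :
    C4Free (desc G N) := by
  have key : ∀ (s : Fin N) (b c d : Fin N ⊕ ((V ↪ Fin N) × V)), Sum.inl s ≠ c → b ≠ d →
      (desc G N).Adj (Sum.inl s) b → (desc G N).Adj b c → (desc G N).Adj c d →
      (desc G N).Adj d (Sum.inl s) → False := by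
    rintro s (b | ⟨eb, b⟩) (c | ⟨ec, c⟩) (d | ⟨ed, d⟩) hac hbd h1 h2 h3 h4
    · exact h1
    · exact h1
    · exact h1
    · exact h1
    · exact h4
    · change eb b = s at h1
      change eb b = c at h2
      exact hac (by rw [← h1, ← h2])
    · exact h4
    · change eb b = s at h1
      obtain ⟨h2, -⟩ := h2
      obtain ⟨h3, -⟩ := h3
      change ed d = s at h4
      subst h2 h3
      apply hbd
      have : b = d := eb.injective (h1.trans h4.symm)
      rw [this]
  intro a b c d hac hbd h1 h2 h3 h4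
  rcases a with a | ⟨ea, a⟩
  · exact key a b c d hac hbd h1 h2 h3 h4
  rcases b with b | ⟨eb, b⟩
  · exact key b c d _ hbd hac.symm h2 h3 h4 h1
  rcases c with c | ⟨ec, c⟩
  · exact key c d _ _ hac.symm hbd.symm h3 h4 h1 h2
  rcases d with d | ⟨ed, d⟩
  · exact key d _ _ _ hbd.symm hac h4 h1 h2 h3
  obtain ⟨e1, h1⟩ := h1
  obtain ⟨e2, h2⟩ := h2
  obtain ⟨e3, h3⟩ := h3
  obtain ⟨e4, h4⟩ := h4
  subst e1 e2 e3
  refine hG a b c d ?_ ?_ h1 h2 h3 h4
  · rintro rfl; exact hac rfl
  · rintro rfl; exact hbd rfl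

lemma exists_c4free (r : ℕ) : ∃ (V : Type) (_ : Fintype V) (G : SimpleGraph V),
    C4Free G ∧ G.Colorable (r + 1) ∧ ¬ G.Colorable r := by
  induction r with
  | zero =>
    refine ⟨Unit, inferInstance, ⊥, ?_, ?_, ?_⟩
    · intro a b c d hac
      exact absurd (Subsingleton.elim a c) hac
    · exact ⟨SimpleGraph.Coloring.mk (fun _ => 0) (by intro v w h; exact absurd h (by simp))⟩
    · rintro ⟨C⟩
      exact (C ()).elim0
  | succ r ih =>
    obtain ⟨V, _, G, hG, hcol, hnot⟩ := ih
    classical
    set N := (r + 1) * Fintype.card V with hN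
    refine ⟨_, inferInstance, desc G N, desc_c4free G N hG, ?_, ?_⟩
    · obtain ⟨C⟩ := hcol
      refine ⟨SimpleGraph.Coloring.mk
        (fun x => match x with
          | Sum.inl _ => Fin.last (r + 1)
          | Sum.inr (_, v) => Fin.castSucc (C v)) ?_⟩
      rintro (s | ⟨e, v⟩) (s' | ⟨e', v'⟩) h
      · exact absurd h (fun h => h)
      · exact (Fin.castSucc_lt_last _).ne'
      · exact (Fin.castSucc_lt_last _).ne
      · intro heq
        exact C.valid h.2 (Fin.castSucc_injective _ heq)
    · rintro ⟨C⟩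
      have hpig : ∃ y : Fin (r + 1), Fintype.card V ≤
          Fintype.card {x : Fin N // C (Sum.inl x) = y} := by
        have := Fintype.exists_le_card_fiber_of_mul_le_card
          (fun x : Fin N => C (Sum.inl x)) (n := Fintype.card V) (by simp [hN])
        obtain ⟨y, hy⟩ := this
        refine ⟨y, ?_⟩
        rw [Fintype.card_subtype]
        exact hy
      obtain ⟨y, hy⟩ := hpig
      obtain ⟨e⟩ := Function.Embedding.nonempty_of_card_le hy
      let e' : V ↪ Fin N := e.trans (Function.Embedding.subtype _)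
      have he' : ∀ v, C (Sum.inl (e' v)) = y := fun v => (e v).2
      have hne : ∀ v, C (Sum.inr (e', v)) ≠ y := by
        intro v h
        have hadj : (desc G N).Adj (Sum.inl (e' v)) (Sum.inr (e', v)) := rfl
        exact C.valid hadj (by rw [he', h])
      apply hnot
      have hcard : Fintype.card {x : Fin (r + 1) // x ≠ y} = r := by
        simp
      have hc : G.Coloring {x : Fin (r + 1) // x ≠ y} :=
        SimpleGraph.Coloring.mk (fun v => ⟨C (Sum.inr (e', v)), hne v⟩) (by
          intro v w h heq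
          have hadj : (desc G N).Adj (Sum.inr (e', v)) (Sum.inr (e', w)) := ⟨rfl, h⟩
          exact C.valid hadj (congrArg Subtype.val heq))
      have := hc.colorable
      rwa [hcard] at this

/-! ### The value of `q_k` -/

lemma no_dipath {k : ℕ} (D : OGraph) (c : Fin D.n → Fin D.n → Fin k)
    (hc : ∀ i, ∀ F ∈ fam, ¬ HasCopy F D c i) (i : Fin k) (w u v : Fin D.n)
    (hwu : D.Adj w u) (huv : D.Adj u v) (h1 : c w u = i) (h2 : c u v = i) : False := by
  apply hc i dipath (by simp [fam])
  have hwv : w ≠ v := by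
    rintro rfl
    exact D.asymm _ _ hwu huv
  have hwu' : w ≠ u := by
    rintro rfl
    exact D.asymm _ _ hwu hwu
  have huv' : u ≠ v := by
    rintro rfl
    exact D.asymm _ _ huv huv
  have hinj : Function.Injective (![w, u, v] : Fin 3 → Fin D.n) := by
    intro a b hab
    fin_cases a <;> fin_cases b <;> simp_all [Fin.ext_iff]
  refine ⟨(![w, u, v] : Fin 3 → Fin D.n), hinj, ?_⟩
  rintro a b (⟨rfl, rfl⟩ | ⟨rfl, rfl⟩)
  · exact ⟨hwu, h1⟩
  · exact ⟨huv, h2⟩

lemma no_anticycle {k : ℕ} (D : OGraph) (c : Fin D.n → Fin D.n → Fin k)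
    (hc : ∀ i, ∀ F ∈ fam, ¬ HasCopy F D c i) (i : Fin k) (a b a' b' : Fin D.n)
    (haa : a ≠ a') (hbb : b ≠ b')
    (h1 : D.Adj a b) (h2 : D.Adj a b') (h3 : D.Adj a' b) (h4 : D.Adj a' b')
    (c1 : c a b = i) (c2 : c a b' = i) (c3 : c a' b = i) (c4 : c a' b' = i) : False := by
  apply hc i anticycle (by simp [fam])
  have hne : ∀ x y, D.Adj x y → x ≠ y := by
    rintro x y h rfl
    exact D.asymm _ _ h h
  have e1 := hne _ _ h1
  have e2 := hne _ _ h2
  have e3 := hne _ _ h3
  have e4 := hne _ _ h4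
  have hinj : Function.Injective (![a, b, a', b'] : Fin 4 → Fin D.n) := by
    intro x y hxy
    fin_cases x <;> fin_cases y <;>
      first
      | rfl
      | exact absurd hxy e1
      | exact absurd hxy e2
      | exact absurd hxy e3
      | exact absurd hxy e4
      | exact absurd hxy e1.symm
      | exact absurd hxy e2.symm
      | exact absurd hxy e3.symm
      | exact absurd hxy e4.symm
      | exact absurd hxy haa
      | exact absurd hxy haa.symm
      | exact absurd hxy hbb
      | exact absurd hxy hbb.symm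
  refine ⟨(![a, b, a', b'] : Fin 4 → Fin D.n), hinj, ?_⟩
  rintro x y ⟨rfl | rfl, rfl | rfl⟩
  · exact ⟨h1, c1⟩
  · exact ⟨h2, c2⟩
  · exact ⟨h3, c3⟩
  · exact ⟨h4, c4⟩

lemma colorable_of_free {k : ℕ} (D : OGraph) (h : HasFreeColouring fam k D) :
    D.toSimple.Colorable (2 ^ k) := by
  classical
  obtain ⟨c, hc⟩ := h
  -- bit `i` of `v` records whether `v` has an incoming arc of colour `i`
  let bits : Fin D.n → (Fin k → Bool) := fun v i => decide (∃ u, D.Adj u v ∧ c u v = i)
  have hbits : ∀ u v, D.Adj u v → bits u ≠ bits v := by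
    intro u v huv heq
    have h1 : bits v (c u v) = true := by
      simp only [bits, decide_eq_true_eq]
      exact ⟨u, huv, rfl⟩
    rw [← heq] at h1
    simp only [bits, decide_eq_true_eq] at h1
    obtain ⟨w, hwu, hcw⟩ := h1
    exact no_dipath D c hc (c u v) w u v hwu huv hcw rfl
  have hcol : D.toSimple.Coloring (Fin k → Bool) :=
    SimpleGraph.Coloring.mk bits (by
      rintro u v (h | h)
      · exact hbits u v h
      · exact (hbits v u h).symm)
  have := hcol.colorable
  simpa using this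

lemma exists_chrom (k : ℕ) (hk : 0 < k) : 2 ^ k ∈ chromaticValues fam k := by
  classical
  obtain ⟨r, hr⟩ : ∃ r, 2 ^ k = r + 1 := ⟨2 ^ k - 1, by have := Nat.one_le_two_pow (n := k); omega⟩
  obtain ⟨V, _, G0, hG0, hcol0, hnot0⟩ := exists_c4free r
  -- transfer to `Fin n`
  let n := Fintype.card V
  let eq : V ≃ Fin n := Fintype.equivFin V
  let G : SimpleGraph (Fin n) := G0.comap eq.symm
  have hiso : G0 ≃g G := (SimpleGraph.Iso.comap eq.symm G0).symm
  have hG : C4Free G := by
    intro a b c d hac hbd h1 h2 h3 h4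
    exact hG0 (eq.symm a) (eq.symm b) (eq.symm c) (eq.symm d) (by simpa using hac)
      (by simpa using hbd) h1 h2 h3 h4
  have hcol : G.Colorable (2 ^ k) := by
    rw [hr]
    obtain ⟨C⟩ := hcol0
    exact ⟨SimpleGraph.Coloring.mk (fun v => C (eq.symm v)) (fun h => C.valid h)⟩
  have hnot : ¬ G.Colorable r := by
    rintro ⟨C⟩
    apply hnot0
    refine ⟨SimpleGraph.Coloring.mk (fun v => C (eq v)) ?_⟩
    intro v w h
    apply C.valid
    show G0.Adj (eq.symm (eq v)) (eq.symm (eq w))
    simpa using h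
  obtain ⟨C⟩ := hcol
  have hcodes : ∃ code : Fin n → (Fin k → Bool), ∀ u v, G.Adj u v → code u ≠ code v := by
    have hc : Fintype.card (Fin (2 ^ k)) = Fintype.card (Fin k → Bool) := by simp
    let e2 := Fintype.equivOfCardEq hc
    exact ⟨fun v => e2 (C v), fun u v h heq => C.valid h (e2.injective heq)⟩
  obtain ⟨code, hcode⟩ := hcodes
  -- first differing coordinate, as a lexicographic comparison
  let lt : (Fin k → Bool) → (Fin k → Bool) → Prop := fun x y => toLex x < toLex y
  have hlt : ∀ x y, lt x y → ∃ i, x i = false ∧ y i = true := by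
    intro x y h
    obtain ⟨i, -, hi⟩ := h
    refine ⟨i, ?_⟩
    have hi' : x i < y i := hi
    revert hi'
    cases x i <;> cases y i <;> simp
  have : Nonempty (Fin k) := ⟨⟨0, hk⟩⟩
  choose! col hcol1 hcol2 using hlt
  let D : OGraph :=
    { n := n
      Adj := fun u v => G.Adj u v ∧ lt (code u) (code v)
      asymm := fun u v h1 h2 => lt_asymm h1.2 h2.2 }
  have hDG : D.toSimple = G := by
    ext u v
    constructor
    · rintro (h | h)
      · exact h.1
      · exact h.1.symm
    · intro h
      rcases lt_or_gt_of_ne (fun hh => hcode u v h hh : toLex (code u) ≠ toLex (code v)) with h' | h'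
      · exact Or.inl ⟨h, h'⟩
      · exact Or.inr ⟨h.symm, h'⟩
  refine ⟨D, ?_, ?_⟩
  · rw [hDG]
    apply le_antisymm
    · exact SimpleGraph.Colorable.chromaticNumber_le ⟨C⟩
    · by_contra hlt'
      rw [not_le] at hlt'
      have hle : G.chromaticNumber ≤ (r : ℕ∞) := by
        rw [hr] at hlt'
        exact Order.le_of_lt_add_one (by exact_mod_cast hlt')
      exact hnot (SimpleGraph.chromaticNumber_le_iff_colorable.mp hle)
  · refine ⟨fun u v => col (code u) (code v), ?_⟩
    rintro i F (rfl | rfl) ⟨f, hf, hadj⟩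
    · change Fin 3 → Fin n at f
      obtain ⟨h1, c1⟩ := hadj (0 : Fin 3) (1 : Fin 3) (Or.inl ⟨rfl, rfl⟩)
      obtain ⟨h2, c2⟩ := hadj (1 : Fin 3) (2 : Fin 3) (Or.inr ⟨rfl, rfl⟩)
      have e1 := hcol2 _ _ h1.2
      have e2 := hcol1 _ _ h2.2
      rw [show col (code (f (0 : Fin 3))) (code (f (1 : Fin 3))) = i from c1] at e1
      rw [show col (code (f (1 : Fin 3))) (code (f (2 : Fin 3))) = i from c2] at e2
      rw [e1] at e2
      exact absurd e2 (by decide)
    · change Fin 4 → Fin n at f
      obtain ⟨h1, -⟩ := hadj (0 : Fin 4) (1 : Fin 4) ⟨Or.inl rfl, Or.inl rfl⟩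
      obtain ⟨h2, -⟩ := hadj (2 : Fin 4) (1 : Fin 4) ⟨Or.inr rfl, Or.inl rfl⟩
      obtain ⟨h3, -⟩ := hadj (2 : Fin 4) (3 : Fin 4) ⟨Or.inr rfl, Or.inr rfl⟩
      obtain ⟨h4, -⟩ := hadj (0 : Fin 4) (3 : Fin 4) ⟨Or.inl rfl, Or.inr rfl⟩
      refine hG (f (0 : Fin 4)) (f (1 : Fin 4)) (f (2 : Fin 4)) (f (3 : Fin 4)) ?_ ?_
        h1.1 h2.1.symm h3.1 h4.1.symm
      · exact fun h => absurd (hf h) (by decide : ¬ ((0 : Fin 4) = 2))
      · exact fun h => absurd (hf h) (by decide : ¬ ((1 : Fin 4) = 3))

/-! ### The bound on `p_k` -/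

lemma order_le {k : ℕ} (D : OGraph) (hT : D.IsTournament) (h : HasFreeColouring fam k D) :
    D.n ≤ k ^ 2 + k + 1 := by
  classical
  obtain ⟨c, hc⟩ := h
  obtain ⟨n, Adj, asymm⟩ := D
  change ∀ u v : Fin n, u ≠ v → Adj u v ∨ Adj v u at hT
  change Fin n → Fin n → Fin k at c
  show n ≤ k ^ 2 + k + 1
  set D : OGraph := ⟨n, Adj, asymm⟩ with hD
  rcases n with _ | m
  · exact Nat.zero_le _
  let e : Fin (m + 1) → Fin (m + 1) → Fin k := fun u v => if Adj u v then c u v else c v u
  -- colour of the arc joining two distinct vertices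
  have he1 : ∀ u v, Adj u v → e u v = c u v := fun u v h => if_pos h
  have he2 : ∀ u v, Adj v u → e u v = c v u := fun u v h => if_neg (asymm _ _ h)
  -- two vertices have at most one common neighbour in each colour
  have huniq : ∀ u w, u ≠ w → ∀ v v', v ≠ u → v ≠ w → v' ≠ u → v' ≠ w →
      e v u = e v w → e v' u = e v' w → e v u = e v' u → v = v' := by
    intro u w huw v v' hvu hvw hvu' hvw' h1 h2 h3
    by_contra hne
    set i := e v u with hi
    have hi2 : e v w = i := h1.symm
    have hi3 : e v' u = i := h3.symm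
    have hi4 : e v' w = i := by rw [← h2]; exact hi3
    rcases hT v u hvu with hvu1 | huv1
    · have c1 : c v u = i := by rw [hi, he1 v u hvu1]
      have hvw1 : Adj v w := by
        rcases hT v w hvw with h | h
        · exact h
        · exact (no_dipath D c hc i w v u h hvu1 (by rw [← he2 v w h]; exact hi2) c1).elim
      have hvu1' : Adj v' u := by
        rcases hT v' u hvu' with h | h
        · exact h
        · exact (no_dipath D c hc i v u v' hvu1 h c1 (by rw [← he2 v' u h]; exact hi3)).elim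
      have c2 : c v w = i := by rw [← he1 v w hvw1]; exact hi2
      have c3 : c v' u = i := by rw [← he1 v' u hvu1']; exact hi3
      have hvw1' : Adj v' w := by
        rcases hT v' w hvw' with h | h
        · exact h
        · exact (no_dipath D c hc i w v' u h hvu1' (by rw [← he2 v' w h]; exact hi4) c3).elim
      have c4 : c v' w = i := by rw [← he1 v' w hvw1']; exact hi4
      exact no_anticycle D c hc i v u v' w hne huw hvu1 hvw1 hvu1' hvw1' c1 c2 c3 c4
    · have c1 : c u v = i := by rw [hi, he2 v u huv1]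
      have hwv1 : Adj w v := by
        rcases hT w v hvw.symm with h | h
        · exact h
        · exact (no_dipath D c hc i u v w huv1 h c1 (by rw [← he1 v w h]; exact hi2)).elim
      have huv1' : Adj u v' := by
        rcases hT u v' hvu'.symm with h | h
        · exact h
        · exact (no_dipath D c hc i v' u v h huv1 (by rw [← he1 v' u h]; exact hi3) c1).elim
      have c2 : c w v = i := by rw [← he2 v w hwv1]; exact hi2
      have c3 : c u v' = i := by rw [← he2 v' u huv1']; exact hi3
      have hwv1' : Adj w v' := by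
        rcases hT w v' hvw'.symm with h | h
        · exact h
        · exact (no_dipath D c hc i u v' w huv1' h c3 (by rw [← he1 v' w h]; exact hi4)).elim
      have c4 : c w v' = i := by rw [← he2 v' w hwv1']; exact hi4
      exact no_anticycle D c hc i u v w v' huw hne huv1 huv1' hwv1 hwv1' c1 c3 c2 c4
  -- double counting
  let T : Fin (m + 1) → Finset (Fin (m + 1) × Fin (m + 1)) := fun v =>
    Finset.univ.filter (fun p => p.1 ≠ v ∧ p.2 ≠ v ∧ e v p.1 = e v p.2)
  let A : Fin (m + 1) → Fin k → Finset (Fin (m + 1)) := fun v i =>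
    Finset.univ.filter (fun u => u ≠ v ∧ e v u = i)
  have hA : ∀ v, ∑ i, (A v i).card = m := by
    intro v
    have h := Finset.card_eq_sum_card_fiberwise (f := fun u => e v u)
      (s := Finset.univ.filter (fun u => u ≠ v)) (t := Finset.univ) (fun _ _ => Finset.mem_univ _)
    have h2 : (Finset.univ.filter (fun u : Fin (m + 1) => u ≠ v)).card = m := by
      rw [Finset.filter_ne' Finset.univ v, Finset.card_erase_of_mem (Finset.mem_univ v)]
      simp
    rw [h2] at h
    refine Eq.trans (Finset.sum_congr rfl (fun i _ => ?_)) h.symm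
    congr 1
    ext u
    simp [A]
  have hTA : ∀ v, (T v).card = ∑ i, (A v i).card ^ 2 := by
    intro v
    rw [Finset.card_eq_sum_card_fiberwise (f := fun p => e v p.1)
      (s := T v) (t := Finset.univ) (fun _ _ => Finset.mem_univ _)]
    refine Finset.sum_congr rfl (fun i _ => ?_)
    rw [sq, ← Finset.card_product]
    congr 1
    ext ⟨a, b⟩
    simp only [T, A, Finset.mem_filter, Finset.mem_univ, true_and, Finset.mem_product]
    constructor
    · rintro ⟨⟨h1, h2, h3⟩, h4⟩
      exact ⟨⟨h1, h4⟩, ⟨h2, by rw [← h3]; exact h4⟩⟩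
    · rintro ⟨⟨h1, h2⟩, ⟨h3, h4⟩⟩
      exact ⟨⟨h1, h3, h2.trans h4.symm⟩, h2⟩
  have hCS : ∀ v, m ^ 2 ≤ k * (T v).card := by
    intro v
    have h := sq_sum_le_card_mul_sum_sq (s := (Finset.univ : Finset (Fin k)))
      (f := fun i => (A v i).card)
    rw [hA v, ← hTA v] at h
    simpa using h
  let T' : Fin (m + 1) → Finset (Fin (m + 1) × Fin (m + 1)) := fun v =>
    (T v).filter (fun p => p.1 ≠ p.2)
  have hTT' : ∀ v, (T v).card = (T' v).card + m := by
    intro v
    have h := Finset.card_filter_add_card_filter_not (s := T v) (fun p => p.1 ≠ p.2)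
    have h2 : ((T v).filter (fun p => ¬ p.1 ≠ p.2)).card = m := by
      have h3 : ((T v).filter (fun p => ¬ p.1 ≠ p.2)) =
          (Finset.univ.filter (fun u : Fin (m + 1) => u ≠ v)).image (fun u => (u, u)) := by
        ext ⟨a, b⟩
        simp only [T, Finset.mem_filter, Finset.mem_univ, true_and, not_not, Finset.mem_image,
          Prod.mk.injEq]
        constructor
        · rintro ⟨⟨h1, h2, h3⟩, rfl⟩
          exact ⟨a, h1, rfl, rfl⟩
        · rintro ⟨u, hu, rfl, rfl⟩
          exact ⟨⟨hu, hu, rfl⟩, rfl⟩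
      rw [h3, Finset.card_image_of_injective _ (fun a b h => (Prod.mk.inj h).1),
        Finset.filter_ne' Finset.univ v, Finset.card_erase_of_mem (Finset.mem_univ v)]
      simp
    rw [h2] at h
    exact h.symm
  have hsum : ∑ v, (T' v).card ≤ k * ((m + 1) * m) := by
    let P : Finset (Fin (m + 1) × Fin (m + 1)) := Finset.univ.filter (fun p => p.1 ≠ p.2)
    have hP : P.card = (m + 1) * m := by
      have : P = (Finset.univ : Finset (Fin (m + 1))).offDiag := by
        ext ⟨a, b⟩; simp [P]
      rw [this, Finset.offDiag_card]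
      simp [Nat.mul_succ, mul_comm]
    have h1 : ∑ v, (T' v).card =
        ∑ p ∈ P, (Finset.univ.filter (fun v => p.1 ≠ v ∧ p.2 ≠ v ∧ e v p.1 = e v p.2)).card := by
      have hl : ∀ v, (T' v).card =
          ∑ p ∈ P, if (p.1 ≠ v ∧ p.2 ≠ v ∧ e v p.1 = e v p.2) then 1 else 0 := by
        intro v
        rw [← Finset.card_filter]
        congr 1
        ext p
        simp only [T', T, P, Finset.mem_filter, Finset.mem_univ, true_and]
        tauto
      simp_rw [hl]
      rw [Finset.sum_comm]
      refine Finset.sum_congr rfl (fun p _ => ?_)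
      rw [Finset.card_filter]
    rw [h1]
    have h2 : ∀ p ∈ P,
        (Finset.univ.filter (fun v => p.1 ≠ v ∧ p.2 ≠ v ∧ e v p.1 = e v p.2)).card ≤ k := by
      rintro ⟨u, w⟩ hp
      have huw : u ≠ w := by simpa [P] using hp
      have := Finset.card_le_card_of_injOn (s := Finset.univ.filter
        (fun v => u ≠ v ∧ w ≠ v ∧ e v u = e v w)) (t := (Finset.univ : Finset (Fin k)))
        (fun v => e v u) (fun _ _ => Finset.mem_coe.mpr (Finset.mem_univ _)) (by
          intro v hv v' hv' heq
          simp only [Finset.coe_filter, Finset.mem_univ, true_and, Set.mem_ofPred_eq] at hv hv'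
          exact huniq u w huw v v' hv.1.symm hv.2.1.symm hv'.1.symm hv'.2.1.symm
            hv.2.2 hv'.2.2 heq)
      simpa using this
    calc _ ≤ ∑ _p ∈ P, k := Finset.sum_le_sum h2
      _ = k * ((m + 1) * m) := by rw [Finset.sum_const, hP, smul_eq_mul, mul_comm]
  -- conclusion
  have hfin : (m + 1) * m ^ 2 ≤ k * (k * ((m + 1) * m) + (m + 1) * m) := by
    calc (m + 1) * m ^ 2 = ∑ _v : Fin (m + 1), m ^ 2 := by simp
      _ ≤ ∑ v, k * (T v).card := Finset.sum_le_sum (fun v _ => hCS v)
      _ = k * (∑ v, (T' v).card + (m + 1) * m) := by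
        rw [← Finset.mul_sum]
        congr 1
        simp_rw [hTT']
        rw [Finset.sum_add_distrib]
        simp
      _ ≤ _ := by gcongr
  rcases Nat.eq_zero_or_pos m with rfl | hm
  · omega
  · have hpos : 0 < (m + 1) * m := by positivity
    have : m ≤ k ^ 2 + k := by
      have h5 : ((m + 1) * m) * m ≤ ((m + 1) * m) * (k ^ 2 + k) := by
        calc ((m + 1) * m) * m = (m + 1) * m ^ 2 := by ring
          _ ≤ _ := hfin
          _ = _ := by ring
      exact Nat.le_of_mul_le_mul_left h5 hpos
    omega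

lemma pow_gt (k : ℕ) (hk : 5 ≤ k) : k ^ 2 + k + 1 < 2 ^ k := by
  induction k, hk using Nat.le_induction with
  | base => norm_num
  | succ k hk ih =>
    rw [pow_succ 2 k]
    nlinarith

/-- The finite family `fam` of oriented graphs contains an oriented forest, and for every `k ≥ 5`
one has `p_k(fam) ≤ k^2 + k + 1 < 2^k = q_k(fam)`; in particular `fam` is not `k`-nice for any
`k ≥ 5`. -/
theorem result : fam.Finite ∧ (∃ F ∈ fam, F.IsForest) ∧
    ∀ k : ℕ, 5 ≤ k →
      (∃ p : ℕ, IsGreatest (tournamentOrders fam k) p ∧ p ≤ k ^ 2 + k + 1) ∧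
      IsGreatest (chromaticValues fam k) (2 ^ k) ∧ ¬ IsNice fam k := by
  refine ⟨by simp [fam], ⟨dipath, by simp [fam], dipath_forest⟩, fun k hk => ?_⟩
  have hbound : ∀ m ∈ tournamentOrders fam k, m ≤ k ^ 2 + k + 1 := by
    rintro m ⟨D, rfl, hT, hc⟩
    exact order_le D hT hc
  have hne : (tournamentOrders fam k).Nonempty := by
    refine ⟨0, ⟨0, fun _ _ => False, fun _ _ h => h.elim⟩, rfl, fun u => u.elim0,
      fun u => u.elim0, ?_⟩
    rintro i F (rfl | rfl) ⟨f, -, -⟩
    · exact (f (0 : Fin 3)).elim0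
    · exact (f (0 : Fin 4)).elim0
  have hp : IsGreatest (tournamentOrders fam k) (sSup (tournamentOrders fam k)) := by
    have hbdd : BddAbove (tournamentOrders fam k) := ⟨_, hbound⟩
    exact ⟨Nat.sSup_mem hne hbdd, fun m hm => le_csSup hbdd hm⟩
  have hq : IsGreatest (chromaticValues fam k) (2 ^ k) := by
    refine ⟨exists_chrom k (by omega), ?_⟩
    rintro m ⟨D, hD, hc⟩
    have h := (colorable_of_free D hc).chromaticNumber_le
    rw [hD] at h
    exact_mod_cast h
  refine ⟨⟨_, hp, hbound _ hp.1⟩, hq, ?_⟩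
  rintro ⟨m, h1, h2⟩
  have e1 := h1.unique hp
  have e2 := h2.unique hq
  have := hbound _ h1.1
  have := pow_gt k hk
  omega

end Pool.Agent.Results.MP_a09a01_co.NotNice
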